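import Mathlib
import Pool.Agent.H80.GridDefs
import Pool.Agent.H80.Grid

open Pool.Agent.H80.Grid

theorem Pool.Agent.Results.MP_a64928_ag.NoBound.result (d : ℕ) :
    ∃ H : Set ((Fin 2 → ℂ) × (Fin 2 → ℂ)), IrredHyp H ∧ GridFree 2 2 H ∧
      ∀ (σ : Fin 2 → MvPolynomial (Fin 2) ℂ) (F : Bi 2), IsAut σ → F.totalDegree ≤ d →
        H ≠ {p | ev F p.1 (pmap σ p.2) = 0} :=
  ⟨H (d + 1), irred (by omega), gridFree (by omega), fun σ F hσ hF h => by
    have := deg_ge (by omega) hσ h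
    omega⟩
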